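import Pool.Agent.L7h17.TR.Stm

/-!
Project TR (helper17), part SEC: an invariant connected cone off the axis meets every half plane.
-/

set_option autoImplicit false

namespace Pool.Agent.L7h99.TR

open Pool.Agent.L7h17 Pool.Agent.L7h17.TR

/-- the complex coordinate -/
noncomputable def zz (w : Fin 3 → ℝ) : ℂ := (w 0 : ℂ) + (w 1 : ℂ) * Complex.I

lemma zz_rot (θ : ℝ) (w : Fin 3 → ℝ) :
    zz ((OC.Rot θ).mulVec w) = Complex.exp (θ * Complex.I) * zz w := by
  have h0 : (OC.Rot θ).mulVec w 0 = Real.cos θ * w 0 - Real.sin θ * w 1 := by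
    simp [OC.Rot, Matrix.mulVec, dotProduct, Fin.sum_univ_three]
    ring
  have h1 : (OC.Rot θ).mulVec w 1 = Real.sin θ * w 0 + Real.cos θ * w 1 := by
    simp [OC.Rot, Matrix.mulVec, dotProduct, Fin.sum_univ_three]
  unfold zz
  rw [h0, h1, Complex.exp_mul_I, ← Complex.ofReal_cos, ← Complex.ofReal_sin]
  push_cast
  linear_combination (-(Complex.sin θ * (w 1 : ℂ))) * Complex.I_sq

lemma zz_cont : Continuous zz := by
  unfold zz
  fun_prop

theorem s_SEC : S_SEC := by
  intro θ m hA hm E hE hax hsc hrot θ₀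
  by_contra hcon
  push Not at hcon
  set u : ℂ := Complex.exp (-(θ₀ : ℂ) * Complex.I) with hu
  have hu0 : u ≠ 0 := Complex.exp_ne_zero _
  have huu : Complex.exp ((θ₀ : ℂ) * Complex.I) * u = 1 := by
    rw [hu, ← Complex.exp_add]
    ring_nf
    exact Complex.exp_zero
  set g : (Fin 3 → ℝ) → ℝ := fun w => Complex.arg (-(zz w * u)) with hg
  have hz0 : ∀ w ∈ E, zz w ≠ 0 := by
    intro w hw h
    have hre : (zz w).re = 0 := by rw [h]; rfl
    have him : (zz w).im = 0 := by rw [h]; rfl
    have e1 : (zz w).re = w 0 := by simp [zz]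
    have e2 : (zz w).im = w 1 := by simp [zz]
    rcases hax w hw with h1 | h1
    · exact h1 (by rw [← e1, hre])
    · exact h1 (by rw [← e2, him])
  -- the slit plane
  have hslit : ∀ w ∈ E, -(zz w * u) ∈ Complex.slitPlane := by
    intro w hw
    by_contra hn
    rw [Complex.mem_slitPlane_iff] at hn
    push Not at hn
    obtain ⟨h1, h2⟩ := hn
    set r : ℝ := (zz w * u).re with hr
    have hr0 : 0 ≤ r := by
      have : (-(zz w * u)).re = - r := by simp [hr]
      linarith
    have him : (zz w * u).im = 0 := by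
      have : (-(zz w * u)).im = - (zz w * u).im := Complex.neg_im _
      linarith
    have hzr : zz w * u = (r : ℂ) := Complex.ext (by simp [hr]) (by simp [him])
    have hrpos : 0 < r := by
      rcases hr0.lt_or_eq with h | h
      · exact h
      · exfalso
        rw [← h] at hzr
        have : zz w * u = 0 := by rw [hzr]; simp
        rcases mul_eq_zero.mp this with h' | h'
        · exact hz0 w hw h'
        · exact hu0 h'
    have hzw : zz w = (r : ℂ) * Complex.exp ((θ₀ : ℂ) * Complex.I) := by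
      calc zz w = zz w * (Complex.exp ((θ₀ : ℂ) * Complex.I) * u) := by rw [huu, mul_one]
        _ = (zz w * u) * Complex.exp ((θ₀ : ℂ) * Complex.I) := by ring
        _ = _ := by rw [hzr]
    have e1 : w 0 = r * Real.cos θ₀ := by
      have : (zz w).re = w 0 := by simp [zz]
      rw [← this, hzw, Complex.re_ofReal_mul, Complex.exp_ofReal_mul_I_re]
    have e2 : w 1 = r * Real.sin θ₀ := by
      have : (zz w).im = w 1 := by simp [zz]
      rw [← this, hzw, Complex.im_ofReal_mul, Complex.exp_ofReal_mul_I_im]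
    apply hcon (r⁻¹ * w 2)
    have h3 := hsc w hw r⁻¹ (inv_pos.mpr hrpos)
    have e3 : r⁻¹ • w = ![Real.cos θ₀, Real.sin θ₀, r⁻¹ * w 2] := by
      funext i
      fin_cases i
      · show r⁻¹ * w 0 = Real.cos θ₀
        rw [e1, ← mul_assoc, inv_mul_cancel₀ hrpos.ne', one_mul]
      · show r⁻¹ * w 1 = Real.sin θ₀
        rw [e2, ← mul_assoc, inv_mul_cancel₀ hrpos.ne', one_mul]
      · rfl
    rwa [e3] at h3
  have hgc : ContinuousOn g E := by
    intro w hw
    have h1 : ContinuousAt (fun w : Fin 3 → ℝ => -(zz w * u)) w :=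
      ((zz_cont.mul continuous_const).neg).continuousAt
    exact (ContinuousAt.comp (f := fun w : Fin 3 → ℝ => -(zz w * u)) (g := Complex.arg)
      (Complex.continuousAt_arg (hslit w hw)) h1).continuousWithinAt
  set R : (Fin 3 → ℝ) → (Fin 3 → ℝ) := fun w => (OC.Rot θ).mulVec w with hR
  have hRc : Continuous R := by
    rw [hR]
    exact Continuous.matrix_mulVec continuous_const continuous_id
  have hRE : ∀ w ∈ E, R w ∈ E := hrot
  -- the increments
  have hinc : ∀ w ∈ E, ∃ n : ℤ, g (R w) - g w - θ = n * (2 * Real.pi) := by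
    intro w hw
    have hx := Complex.norm_mul_exp_arg_mul_I (-(zz w * u))
    have hx' := Complex.norm_mul_exp_arg_mul_I (-(zz (R w) * u))
    have e1 : -(zz (R w) * u) = Complex.exp (θ * Complex.I) * (-(zz w * u)) := by
      rw [hR]
      show -(zz ((OC.Rot θ).mulVec w) * u) = _
      rw [zz_rot]
      ring
    have e2 : ‖-(zz (R w) * u)‖ = ‖-(zz w * u)‖ := by
      rw [e1, norm_mul, Complex.norm_exp_ofReal_mul_I, one_mul]
    have hn : (‖-(zz w * u)‖ : ℂ) ≠ 0 := by
      have : -(zz w * u) ≠ 0 := neg_ne_zero.mpr (mul_ne_zero (hz0 w hw) hu0)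
      exact_mod_cast norm_ne_zero_iff.mpr this
    have e3 : Complex.exp (((g (R w) : ℝ) : ℂ) * Complex.I) =
        Complex.exp (((θ : ℂ) + (g w : ℝ)) * Complex.I) := by
      apply mul_left_cancel₀ hn
      calc (‖-(zz w * u)‖ : ℂ) * Complex.exp (((g (R w) : ℝ) : ℂ) * Complex.I)
          = (‖-(zz (R w) * u)‖ : ℂ) * Complex.exp (((g (R w) : ℝ) : ℂ) * Complex.I) := by
            rw [e2]
        _ = -(zz (R w) * u) := hx'
        _ = Complex.exp (θ * Complex.I) * (-(zz w * u)) := e1
        _ = Complex.exp (θ * Complex.I) *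
            ((‖-(zz w * u)‖ : ℂ) * Complex.exp (((g w : ℝ) : ℂ) * Complex.I)) := by
            rw [hx]
        _ = (‖-(zz w * u)‖ : ℂ) * Complex.exp (((θ : ℂ) + (g w : ℝ)) * Complex.I) := by
            rw [add_mul, Complex.exp_add]
            ring
    obtain ⟨n, hn2⟩ := Complex.exp_eq_exp_iff_exists_int.mp e3
    refine ⟨n, ?_⟩
    have h4 := congrArg Complex.im hn2
    simp at h4
    linarith
  -- constancy
  have hconst : ∀ w ∈ E, ∀ w' ∈ E, g (R w) - g w = g (R w') - g w' := by
    intro w hw w' hw'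
    have hc : ContinuousOn (fun w => g (R w) - g w - θ) E :=
      ((hgc.comp hRc.continuousOn hRE).sub hgc).sub continuousOn_const
    have hp := hE.isPreconnected.image _ hc
    have hct : (Set.range (fun n : ℤ => (n : ℝ) * (2 * Real.pi))).Countable :=
      Set.countable_range _
    have hs := hct.isTotallyDisconnected ((fun w => g (R w) - g w - θ) '' E) (by
      rintro _ ⟨v, hv, rfl⟩
      obtain ⟨n, hn⟩ := hinc v hv
      exact ⟨n, hn.symm⟩) hp
    have := hs ⟨w, hw, rfl⟩ ⟨w', hw', rfl⟩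
    have h5 : g (R w) - g w - θ = g (R w') - g w' - θ := this
    linarith
  obtain ⟨w₀, hw₀⟩ := hE.nonempty
  set δ : ℝ := g (R w₀) - g w₀ with hδ
  have hit : ∀ k : ℕ, R^[k] w₀ ∈ E ∧ g (R^[k] w₀) = g w₀ + k * δ ∧
      zz (R^[k] w₀) = Complex.exp (θ * Complex.I) ^ k * zz w₀ := by
    intro k
    induction k with
    | zero => simp [hw₀]
    | succ k ih =>
      obtain ⟨h1, h2, h3⟩ := ih
      rw [Function.iterate_succ_apply']
      refine ⟨hRE _ h1, ?_, ?_⟩
      · have := hconst _ h1 _ hw₀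
        push_cast
        linarith
      · show zz ((OC.Rot θ).mulVec (R^[k] w₀)) = _
        rw [zz_rot, h3, pow_succ]
        ring
  obtain ⟨-, h2, h3⟩ := hit m
  have hm1 : Complex.exp (θ * Complex.I) ^ m = 1 := by
    rw [← Complex.exp_nat_mul, ← hA.2.1]
    congr 1
    ring
  rw [hm1, one_mul] at h3
  have h6 : g (R^[m] w₀) = g w₀ := by
    show Complex.arg (-(zz (R^[m] w₀) * u)) = Complex.arg (-(zz w₀ * u))
    rw [h3]
  have h7 : (m : ℝ) * δ = 0 := by linarith
  have hm0 : (m : ℝ) ≠ 0 := by exact_mod_cast (by omega : m ≠ 0)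
  have h8 : δ = 0 := (mul_eq_zero.mp h7).resolve_left hm0
  obtain ⟨n, hn⟩ := hinc w₀ hw₀
  have h9 : θ = -n * (2 * Real.pi) := by
    have : g (R w₀) - g w₀ = 0 := h8
    linarith
  apply hA.2.2 1 (by norm_num) (by omega)
  rw [Complex.exp_eq_one_iff]
  refine ⟨-n, ?_⟩
  rw [h9]
  push_cast
  ring

end Pool.Agent.L7h99.TR
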